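import Pool.Agent.H80.JE.Targets
import Pool.Agent.H49.JD.CLT

/-!
# EV1: the limit of the mean of `(|X| - τ)₊`
-/

set_option autoImplicit false

namespace Pool.Agent.H26.JE

open Finset Filter Topology Pool.Agent.H80.JD Pool.Agent.H80.JE Pool.Agent.H49.JD MeasureTheory
  ProbabilityTheory

/-- the law of the normalised sum -/
noncomputable def mu (m : ℕ) : ProbabilityMeasure ℝ := ⟨nu m (Real.sqrt m)⁻¹, inferInstance⟩

/-- the standard normal law -/
noncomputable def gam : ProbabilityMeasure ℝ := ⟨gaussianReal 0 1, inferInstance⟩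

theorem tendsto_mu : Tendsto mu atTop (𝓝 gam) := by
  refine ProbabilityMeasure.tendsto_iff_tendsto_charFun.2 fun t => ?_
  have e1 : charFun (gam : Measure ℝ) t = ((Real.exp (-t ^ 2 / 2) : ℝ) : ℂ) := by
    change charFun (gaussianReal 0 1) t = _
    rw [charFun_gaussianReal]
    push_cast
    congr 1
    ring
  have e2 : ∀ n, charFun (mu n : Measure ℝ) t =
      ((Real.cos (t / Real.sqrt n) ^ n : ℝ) : ℂ) := by
    intro n
    change charFun (nu n (Real.sqrt n)⁻¹) t = _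
    rw [charFun_nu, div_eq_mul_inv]
  rw [e1]
  simp only [e2]
  exact (Complex.continuous_ofReal.tendsto _).comp (tendsto_cos_pow t)

theorem integral_nu (k : ℕ) (s : ℝ) (g : ℝ → ℝ) :
    ∫ x, g x ∂(nu k s) = (∑ h : Fin k → Bool, g (s * ((csum h : ℤ) : ℝ))) / 2 ^ k := by
  rw [nu, integral_smul_measure,
    integral_finsetSum_measure (fun i _ => integrable_dirac (by simp))]
  simp only [integral_dirac]
  have h1 : (((2 : ENNReal) ^ k)⁻¹).toReal = (1 / 2 : ℝ) ^ k := by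
    rw [ENNReal.toReal_inv, ENNReal.toReal_pow]
    simp
  rw [h1, smul_eq_mul, div_pow, one_pow, one_div, inv_mul_eq_div]
  simp only [ip_zero, csum]

/-- the function `(|x| - τ)₊` -/
noncomputable def gf (τ x : ℝ) : ℝ := max (|x| - τ) 0

theorem continuous_gf (τ : ℝ) : Continuous (gf τ) := by
  unfold gf
  fun_prop

theorem gf_nonneg (τ x : ℝ) : 0 ≤ gf τ x := le_max_right _ _

theorem gf_le (τ x : ℝ) (hτ : 0 ≤ τ) : gf τ x ≤ |x| :=
  max_le (by linarith) (abs_nonneg x)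

/-- the truncated function -/
noncomputable def ff (τ M x : ℝ) : ℝ := min (gf τ x) M

theorem gf_sub_ff_nonneg (τ M x : ℝ) : 0 ≤ gf τ x - ff τ M x := by
  have := min_le_left (gf τ x) M
  unfold ff
  linarith

theorem gf_sub_ff_le (τ M x : ℝ) (hτ : 0 ≤ τ) (hM : 0 < M) : gf τ x - ff τ M x ≤ x ^ 2 / M := by
  unfold ff
  have h0 : 0 ≤ x ^ 2 / M := by positivity
  rcases le_total (gf τ x) M with h | h
  · rw [min_eq_left h]
    linarith
  · rw [min_eq_right h]
    have h1 := gf_le τ x hτ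
    have h2 : M ≤ |x| := h.trans h1
    have h3 : |x| ≤ x ^ 2 / M := by
      rw [le_div_iff₀ hM, ← sq_abs]
      nlinarith [abs_nonneg x]
    linarith

theorem ev_eq (m : ℕ) (τ : ℝ) : ev m τ = ∫ x, gf τ x ∂(mu m : Measure ℝ) := by
  change _ = ∫ x, gf τ x ∂(nu m (Real.sqrt m)⁻¹)
  rw [integral_nu, ev]
  congr 1
  refine Finset.sum_congr rfl fun h _ => ?_
  rw [gf, abs_mul, abs_inv, abs_of_nonneg (Real.sqrt_nonneg _), inv_mul_eq_div]

theorem err_mu (hV2 : T_V2) (m : ℕ) (hm : 1 ≤ m) (τ M : ℝ) (hτ : 0 ≤ τ) (hM : 0 < M) :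
    |(∫ x, gf τ x ∂(mu m : Measure ℝ)) - ∫ x, ff τ M x ∂(mu m : Measure ℝ)| ≤ 1 / M := by
  change |(∫ x, gf τ x ∂(nu m (Real.sqrt m)⁻¹)) - ∫ x, ff τ M x ∂(nu m (Real.sqrt m)⁻¹)| ≤ 1 / M
  rw [integral_nu, integral_nu, ← sub_div, ← Finset.sum_sub_distrib]
  have h0 : 0 ≤ ∑ h : Fin m → Bool, (gf τ ((Real.sqrt m)⁻¹ * ((csum h : ℤ) : ℝ)) -
      ff τ M ((Real.sqrt m)⁻¹ * ((csum h : ℤ) : ℝ))) :=
    Finset.sum_nonneg fun h _ => gf_sub_ff_nonneg _ _ _
  have hm0 : (0 : ℝ) < m := by exact_mod_cast hm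
  have h1 : ∑ h : Fin m → Bool, (gf τ ((Real.sqrt m)⁻¹ * ((csum h : ℤ) : ℝ)) -
      ff τ M ((Real.sqrt m)⁻¹ * ((csum h : ℤ) : ℝ))) ≤ 2 ^ m / M := by
    calc _ ≤ ∑ h : Fin m → Bool, ((Real.sqrt m)⁻¹ * ((csum h : ℤ) : ℝ)) ^ 2 / M :=
          Finset.sum_le_sum fun h _ => gf_sub_ff_le _ _ _ hτ hM
      _ = ((m : ℝ)⁻¹ * ∑ h : Fin m → Bool, ((csum h : ℤ) : ℝ) ^ 2) / M := by
          rw [Finset.mul_sum, Finset.sum_div]
          refine Finset.sum_congr rfl fun h _ => ?_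
          rw [mul_pow, inv_pow, Real.sq_sqrt hm0.le]
      _ = 2 ^ m / M := by
          rw [hV2 m, inv_mul_cancel_left₀ hm0.ne']
  rw [abs_of_nonneg (div_nonneg h0 (by positivity)), div_le_iff₀ (by positivity)]
  calc _ ≤ 2 ^ m / M := h1
    _ = 1 / M * 2 ^ m := by ring

theorem integrable_sq : Integrable (fun x : ℝ => x ^ 2) (gaussianReal 0 1) := by
  have := (memLp_id_gaussianReal (μ := 0) (v := 1) 2)
  have h2 := this.integrable_sq
  exact h2

theorem integral_sq : ∫ x : ℝ, x ^ 2 ∂(gaussianReal 0 1) = 1 := by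
  have h := variance_id_gaussianReal (μ := 0) (v := 1)
  rw [variance_eq_integral aemeasurable_id] at h
  simp only [id_eq, integral_id_gaussianReal, sub_zero] at h
  simpa using h

theorem integrable_abs : Integrable (fun x : ℝ => |x|) (gaussianReal 0 1) := by
  have := (memLp_id_gaussianReal (μ := 0) (v := 1) 1)
  have h2 := this.integrable le_rfl
  exact h2.abs

theorem integrable_gf (τ : ℝ) (hτ : 0 ≤ τ) : Integrable (gf τ) (gaussianReal 0 1) := by
  refine integrable_abs.mono' (continuous_gf τ).aestronglyMeasurable ?_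
  refine Eventually.of_forall fun x => ?_
  rw [Real.norm_eq_abs, abs_of_nonneg (gf_nonneg τ x)]
  exact gf_le τ x hτ

theorem continuous_ff (τ M : ℝ) : Continuous (ff τ M) := (continuous_gf τ).min continuous_const

theorem integrable_ff (τ M : ℝ) (hτ : 0 ≤ τ) (hM : 0 < M) :
    Integrable (ff τ M) (gaussianReal 0 1) := by
  refine (integrable_gf τ hτ).mono' (continuous_ff τ M).aestronglyMeasurable ?_
  refine Eventually.of_forall fun x => ?_
  have h0 : 0 ≤ ff τ M x := le_min (gf_nonneg τ x) hM.le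
  rw [Real.norm_eq_abs, abs_of_nonneg h0]
  exact min_le_left _ _

theorem err_gam (τ M : ℝ) (hτ : 0 ≤ τ) (hM : 0 < M) :
    |(∫ x, gf τ x ∂(gaussianReal 0 1)) - ∫ x, ff τ M x ∂(gaussianReal 0 1)| ≤ 1 / M := by
  rw [← integral_sub (integrable_gf τ hτ) (integrable_ff τ M hτ hM)]
  have h0 : 0 ≤ ∫ x, (gf τ x - ff τ M x) ∂(gaussianReal 0 1) :=
    integral_nonneg fun x => gf_sub_ff_nonneg _ _ _
  rw [abs_of_nonneg h0]
  calc ∫ x, (gf τ x - ff τ M x) ∂(gaussianReal 0 1)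
      ≤ ∫ x : ℝ, x ^ 2 / M ∂(gaussianReal 0 1) :=
        integral_mono ((integrable_gf τ hτ).sub (integrable_ff τ M hτ hM))
          (integrable_sq.div_const M) fun x => gf_sub_ff_le _ _ _ hτ hM
    _ = 1 / M := by rw [integral_div, integral_sq]

theorem tendsto_ff (τ M : ℝ) (hM : 0 < M) :
    Tendsto (fun m => ∫ x, ff τ M x ∂(mu m : Measure ℝ)) atTop
      (𝓝 (∫ x, ff τ M x ∂(gaussianReal 0 1))) := by
  have h := (ProbabilityMeasure.tendsto_iff_forall_integral_tendsto.1 tendsto_mu)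
  let F : BoundedContinuousFunction ℝ ℝ := BoundedContinuousFunction.ofNormedAddCommGroup
    (ff τ M) (continuous_ff τ M) M (fun x => by
      have h0 : 0 ≤ ff τ M x := le_min (gf_nonneg τ x) hM.le
      rw [Real.norm_eq_abs, abs_of_nonneg h0]
      exact min_le_right _ _)
  exact h F

/-! ## the Gaussian mean -/

theorem pdf_eq (x : ℝ) : gaussianPDFReal 0 1 x = (Real.sqrt (2 * Real.pi))⁻¹ * Real.exp (-(x ^ 2 / 2)) := by
  rw [gaussianPDFReal]
  simp only [NNReal.coe_one, mul_one, sub_zero]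
  congr 2
  ring

theorem pdf_abs (x : ℝ) : gaussianPDFReal 0 1 |x| = gaussianPDFReal 0 1 x := by
  rw [pdf_eq, pdf_eq, sq_abs]

theorem integral_tail (τ : ℝ) (hτ : 0 ≤ τ) :
    IntegrableOn (fun x : ℝ => x * Real.exp (-(x ^ 2 / 2))) (Set.Ioi τ) ∧
    ∫ x in Set.Ioi τ, x * Real.exp (-(x ^ 2 / 2)) = Real.exp (-(τ ^ 2 / 2)) := by
  have hd : ∀ x ∈ Set.Ici τ, HasDerivAt (fun x : ℝ => -Real.exp (-(x ^ 2 / 2)))
      (x * Real.exp (-(x ^ 2 / 2))) x := by
    intro x _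
    have h1 : HasDerivAt (fun x : ℝ => -(x ^ 2 / 2)) (-x) x := by
      have := ((hasDerivAt_pow 2 x).div_const 2).neg
      refine this.congr_deriv ?_
      simp
    exact h1.exp.neg.congr_deriv (by ring)
  have hpos : ∀ x ∈ Set.Ioi τ, 0 ≤ x * Real.exp (-(x ^ 2 / 2)) := fun x hx =>
    mul_nonneg (hτ.trans (le_of_lt hx)) (Real.exp_pos _).le
  have hlim : Tendsto (fun x : ℝ => -Real.exp (-(x ^ 2 / 2))) atTop (𝓝 0) := by
    have h2 : Tendsto (fun x : ℝ => x ^ 2 / 2) atTop atTop :=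
      (tendsto_pow_atTop (by norm_num)).atTop_div_const (by norm_num)
    have h3 := (Real.tendsto_exp_atBot.comp (tendsto_neg_atTop_atBot.comp h2)).neg
    rw [neg_zero] at h3
    exact h3
  refine ⟨integrableOn_Ioi_deriv_of_nonneg' hd hpos hlim, ?_⟩
  rw [integral_Ioi_of_hasDerivAt_of_nonneg' hd hpos hlim]
  ring

theorem integral_gauss (f : ℝ → ℝ) :
    ∫ x, f x ∂(gaussianReal 0 1) = ∫ x, gaussianPDFReal 0 1 x * f x := by
  rw [integral_gaussianReal_eq_integral_smul (by simp)]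
  rfl

/-- an even function which vanishes on `[-τ, τ]` -/
theorem integral_even (τ : ℝ) (hτ : 0 < τ) (f F : ℝ → ℝ) (h1 : ∀ x, f x = F |x|)
    (h2 : ∀ y, 0 < y → y ≤ τ → F y = 0) :
    ∫ x, f x ∂(gaussianReal 0 1) = 2 * ∫ y in Set.Ioi τ, gaussianPDFReal 0 1 y * F y := by
  rw [integral_gauss]
  have e1 : (fun x => gaussianPDFReal 0 1 x * f x) =
      fun x => (fun y => gaussianPDFReal 0 1 y * F y) |x| := by
    funext x
    rw [h1 x]
    simp only [pdf_abs]
  rw [e1, integral_comp_abs (f := fun y => gaussianPDFReal 0 1 y * F y)]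
  congr 1
  refine setIntegral_eq_of_subset_of_forall_sdiff_eq_zero measurableSet_Ioi
    (fun y hy => lt_trans hτ hy) fun y hy => ?_
  have hy1 : 0 < y := hy.1
  have hy2 : y ≤ τ := not_lt.1 hy.2
  rw [h2 y hy1 hy2, mul_zero]

theorem tail_prob (τ : ℝ) (hτ : 0 < τ) :
    1 - Φ τ = 2 * ∫ y in Set.Ioi τ, gaussianPDFReal 0 1 y := by
  have h1 : ∫ x, ((Set.Icc (-τ) τ)ᶜ).indicator (1 : ℝ → ℝ) x ∂(gaussianReal 0 1) = 1 - Φ τ := by
    rw [integral_indicator_one measurableSet_Icc.compl, probReal_compl_eq_one_sub measurableSet_Icc]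
    rfl
  rw [← h1, integral_even τ hτ _ ((Set.Ioi τ).indicator 1)]
  · congr 1
    refine setIntegral_congr_fun measurableSet_Ioi fun y hy => ?_
    simp only [Set.indicator_of_mem hy, Pi.one_apply, mul_one]
  · intro x
    by_cases hx : |x| ≤ τ
    · rw [Set.indicator_of_notMem, Set.indicator_of_notMem]
      · exact not_lt.2 hx
      · exact fun h => h (abs_le.1 hx)
    · rw [Set.indicator_of_mem, Set.indicator_of_mem]
      · rfl
      · exact not_le.1 hx
      · exact fun h => hx (abs_le.2 h)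
  · intro y _ hy2
    exact Set.indicator_of_notMem (not_lt.2 hy2) _

theorem integrable_pdf (τ : ℝ) : IntegrableOn (gaussianPDFReal 0 1) (Set.Ioi τ) :=
  (integrable_gaussianPDFReal 0 1).integrableOn

theorem two_div_sqrt : 2 * (Real.sqrt (2 * Real.pi))⁻¹ = Real.sqrt (2 / Real.pi) := by
  have hp := Real.pi_pos
  have h1 : Real.sqrt (2 / Real.pi) * Real.sqrt (2 * Real.pi) = 2 := by
    rw [← Real.sqrt_mul (by positivity)]
    have : 2 / Real.pi * (2 * Real.pi) = 2 ^ 2 := by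
      field_simp
    rw [this]
    exact Real.sqrt_sq (by norm_num)
  have h2 : Real.sqrt (2 * Real.pi) ≠ 0 := (Real.sqrt_pos.2 (by positivity)).ne'
  calc 2 * (Real.sqrt (2 * Real.pi))⁻¹
      = Real.sqrt (2 / Real.pi) * Real.sqrt (2 * Real.pi) * (Real.sqrt (2 * Real.pi))⁻¹ := by
        rw [h1]
    _ = Real.sqrt (2 / Real.pi) := mul_inv_cancel_right₀ h2 _

theorem mean_gf (τ : ℝ) (hτ : 0 < τ) :
    ∫ x, gf τ x ∂(gaussianReal 0 1) = ph τ - τ * (1 - Φ τ) := by
  rw [integral_even τ hτ (gf τ) (fun y => max (y - τ) 0) (fun x => rfl)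
    (fun y _ hy => max_eq_right (by linarith))]
  obtain ⟨t1, t2⟩ := integral_tail τ hτ.le
  have h1 : ∫ y in Set.Ioi τ, gaussianPDFReal 0 1 y * max (y - τ) 0 =
      ∫ y in Set.Ioi τ, ((Real.sqrt (2 * Real.pi))⁻¹ * (y * Real.exp (-(y ^ 2 / 2))) -
        τ * gaussianPDFReal 0 1 y) := by
    refine setIntegral_congr_fun measurableSet_Ioi fun y hy => ?_
    have hy' : τ < y := hy
    rw [max_eq_left (by linarith), pdf_eq]
    ring
  rw [h1, integral_sub (t1.const_mul _) ((integrable_pdf τ).const_mul _), integral_const_mul,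
    integral_const_mul, t2, tail_prob τ hτ, ph, ← two_div_sqrt]
  ring

theorem ev1 (_hCLT : T_CLT) (hV2 : T_V2) : T_EV1 := by
  intro τ hτ
  rw [← mean_gf τ hτ]
  rw [Metric.tendsto_atTop]
  intro ε hε
  have hM : (0 : ℝ) < 4 / ε := by positivity
  obtain ⟨N, hN⟩ := Metric.tendsto_atTop.1 (tendsto_ff τ (4 / ε) hM) (ε / 4) (by positivity)
  refine ⟨max N 1, fun m hm => ?_⟩
  have h1 := hN m (le_trans (le_max_left _ _) hm)
  have h2 := err_mu hV2 m (le_trans (le_max_right _ _) hm) τ (4 / ε) hτ.le hM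
  have h3 := err_gam τ (4 / ε) hτ.le hM
  rw [Real.dist_eq] at h1 ⊢
  rw [ev_eq]
  have e : 1 / (4 / ε) = ε / 4 := by field_simp
  rw [e] at h2 h3
  rw [abs_le] at h2 h3
  rw [abs_lt] at h1 ⊢
  constructor <;> linarith [h1.1, h1.2, h2.1, h2.2, h3.1, h3.2]

end Pool.Agent.H26.JE
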